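import Pool.Agent.LibMC92.Q2
import Pool.Agent.LibMC92.M1

/-!
Dichotomy: for every measurable function `g` either `y` is computable from `g y` and a fixed real
for all `y` on a cone, or the reals that are computable from `g y` for all `y` on a cone are
bounded.
-/

open Encodable

namespace MC92

variable {m : MeasurableSpace (ℕ → ℕ)}

/-- The real played by the second player. -/
def bb (a : ℕ → ℕ) : X := fun i => a (2 * i + 1) != 0

theorem continuous_bb : Continuous bb :=
  continuous_of_local fun n => ⟨2 * n + 2, fun a b h => by
    simp only [bb]; rw [h (2 * n + 1) (by omega)]⟩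

theorem prim_seg : Primrec seg := by
  unfold seg
  exact Primrec.option_getD.comp Primrec.decode (Primrec.const _)

theorem prim_ne0 : Primrec fun n : ℕ => (n != 0) := by
  have : Primrec fun n : ℕ => decide (n ≠ 0) :=
    (PrimrecPred.not (Primrec.eq.comp Primrec.id (Primrec.const 0))).decide
  refine this.of_eq fun n => ?_
  by_cases h : n = 0 <;> simp [h]

theorem comp_zz {O : Set (ℕ →. ℕ)} {a : ℕ → ℕ} (ha : ComputableIn O a) :
    ComputableIn O (zz a) := by
  have h1 : ComputableIn O fun i : ℕ => a (2 * i) :=
    ha.comp (Primrec.nat_mul.comp (Primrec.const 2) Primrec.id).computableIn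
  exact (Primrec.snd.comp prim_seg).computableIn.comp h1

/-- rejecting histories. -/
theorem di_step1 {t : List ℕ → ℕ} {y z : X}
    (h : ∀ a, zz (play2 t a) = z → oo (play2 t a) ≠ y) :
    ∃ H, q2_good t y z H ∧ ∀ σ : List Bool, ¬ q2_good t y z (H ++ [encode (σ, z H.length)]) := by
  by_contra hcon
  push Not at hcon
  have hcon' : ∀ H : List ℕ, ∃ σ : List Bool, q2_good t y z H →
      q2_good t y z (H ++ [encode (σ, z H.length)]) := by
    intro H
    by_cases hH : q2_good t y z H
    · obtain ⟨σ, hσ⟩ := hcon H hH
      exact ⟨σ, fun _ => hσ⟩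
    · exact ⟨[], fun h => absurd h hH⟩
  choose f hf using hcon'
  have hgood : ∀ n, q2_good t y z (q2_H z f n) := by
    intro n
    induction n with
    | zero => exact ⟨fun j hj => absurd hj (Nat.not_lt_zero j), rfl⟩
    | succ n ih => exact hf _ ih
  set a : ℕ → ℕ := fun n => encode (f (q2_H z f n), z (q2_H z f n).length) with ha
  have hmap : ∀ n, q2_H z f n = (List.range n).map a := by
    intro n
    induction n with
    | zero => rfl
    | succ n ih =>
      rw [List.range_succ, List.map_append, ← ih]
      rfl
  have hzz : zz (play2 t a) = z := by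
    funext i
    show (seg (play2 t a (2 * i))).2 = z i
    rw [play2_even, ha]
    show (seg (encode (f (q2_H z f i), z (q2_H z f i).length))).2 = z i
    rw [seg_encode, q2_H_length]
  have hoL : ∀ i, oL (play2 t a) i = q2_o t (q2_H z f i) := by
    intro i
    induction i with
    | zero => rfl
    | succ i ih =>
      rw [oL_succ, ih, play2_even, play2_odd, ← hmap, q2_H, q2_o_snoc]
  have hy : y = oo (play2 t a) := by
    refine lim_unique (oL_length (play2 t a)) fun k => ?_
    rw [hoL]
    exact (hgood k).2
  exact h a hzz hy.symm

/-- The decoder of the second player's moves from the output and the strategy. -/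
def di_st (s : List ℕ → ℕ) (z : X) : ℕ → List ℕ × ℕ := fun n =>
  Nat.rec (motive := fun _ => List ℕ × ℕ) ([], 0)
    (fun _ p => (p.1 ++ [(z (p.2 + (seg (s p.1)).1.length)).toNat],
      p.2 + (seg (s p.1)).1.length + 1)) n

theorem di_decode (s : List ℕ → ℕ) (y : X) (n : ℕ) :
    di_st s (oo (play1 s fun i => (y i).toNat)) n =
      ((List.range n).map (fun i => (y i).toNat),
        (oL (play1 s fun i => (y i).toNat) n).length) := by
  induction n with
  | zero => rfl
  | succ n ih =>
    set a := play1 s fun i => (y i).toNat with ha
    have h1 : di_st s (oo a) (n + 1) = ((di_st s (oo a) n).1 ++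
        [(oo a ((di_st s (oo a) n).2 + (seg (s (di_st s (oo a) n).1)).1.length)).toNat],
        (di_st s (oo a) n).2 + (seg (s (di_st s (oo a) n).1)).1.length + 1) := rfl
    rw [h1, ih]
    have h2 : a (2 * n) = s ((List.range n).map fun i => (y i).toNat) := play1_even _ _ _
    have h3 : a (2 * n + 1) = (y n).toNat := play1_odd _ _ _
    have h4 := oo_pre a (n + 1)
    rw [oL_succ, ← List.append_assoc, pre_append_singleton] at h4
    have h5 := h4.2
    rw [List.length_append, h2, h3] at h5
    simp only
    rw [h5, oL_succ, h2, h3]
    refine Prod.ext ?_ ?_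
    · rw [List.range_succ, List.map_append]
      simp only [List.map_cons, List.map_nil]
      cases y n <;> rfl
    · simp only [List.length_append, List.length_cons, List.length_nil]
      omega

theorem di_red {s : List ℕ → ℕ} {y c : X} (hc : ComputableIn {chi c} s) :
    Red y (join c (oo (play1 s fun i => (y i).toNat))) := by
  set z := oo (play1 s fun i => (y i).toNat) with hz
  rw [red_iff]
  have hs : ComputableIn {chi (join c z)} s := comp_mono (red_join_left c z) hc
  have hzc : ComputableIn {chi (join c z)} z := red_iff.1 (red_join_right c z)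
  have hlen : ComputableIn {chi (join c z)} fun l : List ℕ => (seg (s l)).1.length :=
    ((Primrec.list_length.comp Primrec.fst).comp prim_seg).computableIn.comp hs
  have hst : ComputableIn {chi (join c z)} (di_st s z) := by
    refine ComputableIn.nat_rec (f := fun n : ℕ => n) (g := fun _ : ℕ => (([], 0) : List ℕ × ℕ))
      (h := fun (_ : ℕ) (q : ℕ × (List ℕ × ℕ)) =>
        (q.2.1 ++ [(z (q.2.2 + (seg (s q.2.1)).1.length)).toNat],
          q.2.2 + (seg (s q.2.1)).1.length + 1)) ComputableIn.id (ComputableIn.const _) ?_
    have hH : ComputableIn {chi (join c z)} fun p : ℕ × (ℕ × (List ℕ × ℕ)) => p.2.2.1 :=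
      (Primrec.fst.comp (Primrec.snd.comp Primrec.snd)).computableIn
    have hL : ComputableIn {chi (join c z)} fun p : ℕ × (ℕ × (List ℕ × ℕ)) => p.2.2.2 :=
      (Primrec.snd.comp (Primrec.snd.comp Primrec.snd)).computableIn
    have hsum : ComputableIn {chi (join c z)} fun p : ℕ × (ℕ × (List ℕ × ℕ)) =>
        p.2.2.2 + (seg (s p.2.2.1)).1.length :=
      (Primrec.nat_add.computableIn₂ (O := {chi (join c z)})).comp hL (hlen.comp hH)
    have hbit : ComputableIn {chi (join c z)} fun p : ℕ × (ℕ × (List ℕ × ℕ)) =>
        (z (p.2.2.2 + (seg (s p.2.2.1)).1.length)).toNat := (comp_nat hzc).comp hsum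
    exact (((Primrec.list_concat.computableIn₂ (O := {chi (join c z)})).comp hH hbit).pair
      (Primrec.succ.computableIn.comp hsum)).to₂
  have h1 : ComputableIn {chi (join c z)} fun n : ℕ =>
      z ((di_st s z n).2 + (seg (s (di_st s z n).1)).1.length) :=
    hzc.comp ((Primrec.nat_add.computableIn₂ (O := {chi (join c z)})).comp
      (ComputableIn.comp (g := di_st s z) (f := fun p : List ℕ × ℕ => p.2)
        Primrec.snd.computableIn hst)
      (hlen.comp (ComputableIn.comp (g := di_st s z) (f := fun p : List ℕ × ℕ => p.1)
        Primrec.fst.computableIn hst)))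
  refine h1.of_eq fun n => ?_
  rw [hz, di_decode s y n]
  set a := play1 s fun i => (y i).toNat with ha
  have h2 : a (2 * n) = s ((List.range n).map fun i => (y i).toNat) := play1_even _ _ _
  have h3 : a (2 * n + 1) = (y n).toNat := play1_odd _ _ _
  have h4 := oo_pre a (n + 1)
  rw [oL_succ, ← List.append_assoc, pre_append_singleton] at h4
  have h5 := h4.2
  rw [List.length_append, h2, h3] at h5
  simp only
  rw [h5]
  cases y n <;> rfl

/-- Dichotomy. -/
theorem dichotomy (hm : Determinacy m) {g : X → X} (hg : Meas m g) :
    (∃ w : X, Cone fun y => Red y (join w (g y))) ∨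
      ∃ t : X, ∀ z, (Cone fun y => Red z (g y)) → Red z t := by
  have hmeas : @MeasurableSet _ m
      {a : ℕ → ℕ | ¬ Red (zz a) (bb a) ∨ Red (oo a) (g (bb a))} :=
    @MeasurableSet.union _ m _ _
      (@MeasurableSet.compl _ _ m (meas_red (mmap_of_continuous hm continuous_zz)
        (mmap_of_continuous hm continuous_bb)))
      (meas_red (mmap_of_continuous hm continuous_oo) (mmap_comp hm hg continuous_bb))
  rcases hm.determined _ hmeas with ⟨s, hs⟩ | ⟨t, ht⟩
  · left
    obtain ⟨c, hc⟩ := exists_code s
    refine ⟨c, c, fun y hy => ?_⟩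
    set a := play1 s (fun i => (y i).toNat) with ha
    have hbb : bb a = y := by
      funext i
      simp only [bb, ha, play1_odd]
      cases y i <;> rfl
    have hac : ComputableIn {chi y} a := comp_play1 (comp_mono hy hc) (comp_nat (comp_self y))
    have h1 : Red (zz a) (bb a) := by
      rw [hbb]; exact red_iff.2 (comp_zz hac)
    rcases hs (fun i => (y i).toNat) with h2 | h2
    · exact absurd h1 h2
    · have h3 : Red (oo a) (g y) := by
        have h4 : Red (oo a) (g (bb a)) := h2
        rwa [hbb] at h4
      exact red_trans (di_red hc) (join_mono (red_refl c) h3)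
  · right
    let R : ℕ → X := fun i => match (decode i : Option (List ℕ × Bool)) with
      | some v => lim (q2_L t v.1 v.2)
      | none => fun _ => false
    obtain ⟨d, hd⟩ := exists_bound R
    refine ⟨d, fun z ⟨c, hc⟩ => ?_⟩
    obtain ⟨H, hH, hn⟩ := di_step1 (t := t) (y := z) (z := c) (fun a h1 h2 => by
      have h3 := ht a
      simp only [Set.mem_ofPred_eq, not_or, not_not] at h3
      rw [h1, h2] at h3
      exact h3.2 (hc _ h3.1))
    have h4 : z = R (encode (H, c H.length)) := by
      change z = match (decode (encode (H, c H.length)) : Option (List ℕ × Bool)) with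
        | some v => lim (q2_L t v.1 v.2)
        | none => fun _ => false
      rw [encodek]
      exact q2_step2 hH hn
    rw [h4]
    exact hd _

/-- Dichotomy with parameters. -/
theorem dichotomy_param (hm : Determinacy m) {g : X → X} (hg : Meas m g) :
    (∃ w : X, Cone fun y => Red y (join w (g y))) ∨
      ∀ w : X, ∃ t : X, ∀ z, (Cone fun y => Red z (join w (g y))) → Red z t := by
  by_cases h : ∃ w : X, Cone fun y => Red y (join w (g y))
  · exact Or.inl h
  · refine Or.inr fun w => ?_
    rcases dichotomy hm (g := fun y => join w (g y)) (mmap_join (mmap_const w) hg) with h1 | h1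
    · obtain ⟨w', hw'⟩ := h1
      refine absurd ⟨join w' w, cone_mono hw' fun y hy => red_trans hy ?_⟩ h
      exact join_red (red_trans (red_join_left w' w) (red_join_left _ _))
        (join_red (red_trans (red_join_right w' w) (red_join_left _ _)) (red_join_right _ _))
    · exact h1

end MC92
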