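import Pool.Agent.LibSS92.Di
import Pool.Agent.LibMC92.A3

/-!
Consequences of the dichotomy for invariant functions.
-/

namespace MC92

variable {m : MeasurableSpace (ℕ → ℕ)}

/-- an invariant function that is cofinally often below a fixed real is constant on a cone. -/
theorem const_of_bounded (hm : Determinacy m) {f : X → X} (hf : Invariant f) (hfm : Meas m f)
    (t : X) (h : ¬ Cone (fun x => ¬ Red (f x) t)) :
    ∃ d, Cone (fun x => Red (f x) d ∧ Red d (f x)) := by
  have hd := cone_dichotomy hm (P := fun y => Red (f y) t)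
    (fun y y' h1 h2 h3 => red_trans (hf y' y h2 h1) h3)
    (meas_red (F := fun a => f (bits a)) hfm (mmap_const t))
  rcases hd with hd | hd
  · refine count_const hm hf hfm (a2_R t) (cone_mono hd fun y hy => ?_)
    obtain ⟨c, hc⟩ := W_complete hy
    refine ⟨c, ?_⟩
    rw [a2_R_eq hc]
    exact ⟨red_refl _, red_refl _⟩
  · exact absurd hd h

/-- the trichotomy with parameters. -/
theorem param_trichotomy (hm : Determinacy m) {f K : X → X} (hf : Invariant f) (hfm : Meas m f)
    (hKm : Meas m (fun x => K (f x))) (hK : ∀ z z', Red z z' → Red (K z) (K z')) :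
    (∃ d, Cone (fun x => Red (f x) d ∧ Red d (f x))) ∨
      (∃ w, Cone fun y => Red y (join w (K (f y)))) ∨
      ∀ w, Cone fun x => Cone fun y =>
        ¬ Red (f x) (join w (K (f y))) ∧ ¬ Red (f y) (join w (K (f x))) := by
  by_cases h1 : ∃ d, Cone (fun x => Red (f x) d ∧ Red d (f x))
  · exact Or.inl h1
  rcases dichotomy_param hm hKm with h2 | h2
  · exact Or.inr (Or.inl h2)
  refine Or.inr (Or.inr fun w => ?_)
  have hbd : ∀ t, Cone (fun x => ¬ Red (f x) t) := fun t => by
    by_contra hcon
    exact h1 (const_of_bounded hm hf hfm t hcon)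
  obtain ⟨t, ht⟩ := h2 w
  refine cone_mono (hbd t) fun x hx => ?_
  have hd := cone_dichotomy hm (P := fun y => Red (f x) (join w (K (f y))))
    (fun y y' h3 h4 h5 => red_trans h5 (join_mono (red_refl w) (hK _ _ (hf y y' h3 h4))))
    (meas_red (F := fun _ => f x) (G := fun a => join w (K (f (bits a)))) (mmap_const _)
      (mmap_join (mmap_const w) hKm))
  rcases hd with hd | hd
  · exact absurd (ht _ hd) hx
  · exact cone_and hd (hbd _)

end MC92
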