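import Pool.Agent.LibSS92.Di2

/-!
Tools for the theorem of Slaman and Steel on regressive functions: games with colours, codes.
-/

open Encodable

namespace MC92

variable {m : MeasurableSpace (ℕ → ℕ)}

/-- The sequence played by the second player. -/
def bN (a : ℕ → ℕ) : ℕ → ℕ := fun n => a (2 * n + 1)

/-- The graph of a sequence. -/
def gr (b : ℕ → ℕ) : X := fun k => decide (b k.unpair.1 = k.unpair.2)

/-- The real played by the first player with the strategy `s` against `B`. -/
def xB (s : List ℕ → ℕ) (B : ℕ → ℕ) : X := fun n => s ((List.range n).map B) != 0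

theorem yy_play1 (s : List ℕ → ℕ) (B : ℕ → ℕ) : yy (play1 s B) = xB s B := by
  funext n
  simp only [yy, xB, play1_even]

theorem bN_play1 (s : List ℕ → ℕ) (B : ℕ → ℕ) : bN (play1 s B) = B := by
  funext n
  simp only [bN, play1_odd]

theorem yy_play2 (t : List ℕ → ℕ) (x : X) : yy (play2 t fun n => (x n).toNat) = x := by
  funext n
  simp only [yy, play2_even]
  cases x n <;> rfl

theorem bN_play2 (t : List ℕ → ℕ) (a : ℕ → ℕ) :
    bN (play2 t a) = fun n => t ((List.range (n + 1)).map a) := by
  funext n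
  simp only [bN, play2_odd]

theorem comp_gr {O : Set (ℕ →. ℕ)} {b : ℕ → ℕ} (hb : ComputableIn O b) :
    ComputableIn O (gr b) := by
  have h1 : Primrec fun p : ℕ × ℕ => decide (p.1 = p.2) :=
    (Primrec.eq.comp Primrec.fst Primrec.snd).decide
  exact ComputableIn.comp (g := fun k : ℕ => (b k.unpair.1, k.unpair.2))
    (f := fun p : ℕ × ℕ => decide (p.1 = p.2)) h1.computableIn
    ((hb.comp (Primrec.fst.comp Primrec.unpair).computableIn).pair
      (Primrec.snd.comp Primrec.unpair).computableIn)

theorem comp_of_gr (b : ℕ → ℕ) : ComputableIn {chi (gr b)} b := by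
  have h : ∀ n, ∃ k, gr b (Nat.pair n k) = true := fun n => ⟨b n, by simp [gr]⟩
  have h1 : ComputableIn₂ {chi (gr b)} fun n k : ℕ => gr b (Nat.pair n k) :=
    (comp_self (gr b)).comp (Primrec₂.natPair.comp Primrec.fst Primrec.snd).computableIn
  refine (ComputableIn.find h1 h).of_eq fun n => ?_
  rw [Nat.find_eq_iff]
  refine ⟨by simp [gr], fun k hk => ?_⟩
  simp only [gr, Nat.unpair_pair, decide_eq_true_eq]
  omega

theorem continuous_gr : Continuous fun a : ℕ → ℕ => gr (bN a) :=
  continuous_of_local fun n => ⟨2 * n + 2, fun a b h => by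
    have := Nat.unpair_left_le n
    have h' : bN a n.unpair.1 = bN b n.unpair.1 := h _ (by omega)
    simp only [gr]
    rw [h']⟩

theorem comp_xB {O : Set (ℕ →. ℕ)} {s : List ℕ → ℕ} {B : ℕ → ℕ} (hs : ComputableIn O s)
    (hB : ComputableIn O B) : ComputableIn O (xB s B) :=
  (prim_ne0.computableIn).comp (hs.comp (ComputableIn.list_range_map (f := fun (_ : ℕ) n => B n)
    (n := fun n => n) (ComputableIn.comp hB ComputableIn.snd) ComputableIn.id))

theorem xB_local (s : List ℕ → ℕ) {B B' : ℕ → ℕ} {k : ℕ} (h : ∀ i < k, B' i = B i) :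
    ∀ i < k, xB s B' i = xB s B i := by
  intro i hi
  have : (List.range i).map B' = (List.range i).map B :=
    List.map_congr_left fun j hj => h j (by have := List.mem_range.1 hj; omega)
  simp only [xB, this]

/-- One of countably many games is won by the first player. -/
theorem colour_game (hm : Determinacy m) {P : ℕ → (ℕ → ℕ) → Prop}
    (hP : ∀ i, @MeasurableSet _ m {a | P i a}) {c : X}
    (h : ∀ x, Red c x → ∀ t : ℕ → List ℕ → ℕ,
      ComputableIn {chi x} (fun p : ℕ × List ℕ => t p.1 p.2) →
      ∃ i, P i (play2 (t i) fun n => (x n).toNat)) :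
    ∃ i s, ∀ B, P i (play1 s B) := by
  by_contra hcon
  push Not at hcon
  have h1 : ∀ i, ∃ t : List ℕ → ℕ, ∀ a, ¬ P i (play2 t a) := by
    intro i
    rcases hm.determined _ (hP i) with ⟨s, hs⟩ | ⟨t, ht⟩
    · obtain ⟨B, hB⟩ := hcon i s
      exact absurd (hs B) hB
    · exact ⟨t, ht⟩
  choose t ht using h1
  obtain ⟨d, hd⟩ := exists_code fun p : ℕ × List ℕ => t p.1 p.2
  obtain ⟨i, hi⟩ := h (join c d) (red_join_left c d) t (comp_mono (red_join_right c d) hd)
  exact ht i _ hi

/-- A code of a number and of a list of bits; it is an odd number. -/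
def cd (J : ℕ) (l : List Bool) : ℕ := 2 * Nat.pair J (encode l) + 1

theorem cd_odd (J : ℕ) (l : List Bool) : cd J l % 2 = 1 := by unfold cd; omega

theorem cd_half (J : ℕ) (l : List Bool) : cd J l / 2 = Nat.pair J (encode l) := by
  unfold cd; omega

theorem lt_cd (J : ℕ) (l : List Bool) : J < cd J l := by
  have := Nat.left_le_pair J (encode l)
  unfold cd
  omega

/-- decoding of a real from a sequence in which the odd entries are codes of its prefixes. -/
theorem decode_red {x : X} {B : ℕ → ℕ} (h1 : ∀ n, B n % 2 = 1 → ∃ J k, B n = cd J (pre x k))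
    (h2 : ∀ t, ∃ n J k, t < k ∧ B n = cd J (pre x k)) : Red x (gr B) := by
  rw [red_iff]
  let F : ℕ × ℕ → Option Bool := fun p =>
    if p.2 % 2 = 1 then ((decode (p.2 / 2).unpair.2 : Option (List Bool))).bind fun l => l[p.1]?
    else none
  have hF : Primrec F := by
    refine Primrec.ite (Primrec.eq.comp (Primrec.nat_mod.comp Primrec.snd (Primrec.const 2))
      (Primrec.const 1)) ?_ (Primrec.const none)
    refine Primrec.option_bind (Primrec.decode.comp (Primrec.snd.comp (Primrec.unpair.comp
      (Primrec.nat_div.comp Primrec.snd (Primrec.const 2))))) ?_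
    exact (Primrec.list_getElem?.comp Primrec.snd (Primrec.fst.comp Primrec.fst)).to₂
  have hc : ComputableIn₂ {chi (gr B)} fun t n : ℕ => F (t, B n) :=
    ComputableIn.comp (g := fun p : ℕ × ℕ => (p.1, B p.2)) hF.computableIn
      (ComputableIn.fst.pair ((comp_of_gr B).comp ComputableIn.snd))
  have hval : ∀ n J k t, B n = cd J (pre x k) → F (t, B n) = (pre x k)[t]? := by
    intro n J k t h
    simp only [F, h, cd_odd, if_true, cd_half, Nat.unpair_pair, encodek, Option.bind_some]
  refine ComputableIn.findOpt hc (fun t => ?_) (fun t n b hb => ?_)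
  · obtain ⟨n, J, k, hk, hn⟩ := h2 t
    refine ⟨n, ?_⟩
    rw [hval n J k t hn, pre_getElem? x hk]
    rfl
  · by_cases hodd : B n % 2 = 1
    · obtain ⟨J, k, hk⟩ := h1 n hodd
      rw [hval n J k t hk] at hb
      rcases Nat.lt_or_ge t k with h3 | h3
      · rw [pre_getElem? x h3] at hb
        exact (Option.some_injective _ hb).symm
      · rw [List.getElem?_eq_none (by simpa using h3)] at hb
        cases hb
    · simp only [F, if_neg hodd] at hb
      cases hb

/-- running sums. -/
def rsum (p : ℕ → ℕ) : ℕ → ℕ := fun n => Nat.rec (motive := fun _ => ℕ) (p 0)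
  (fun n s => s + p (n + 1)) n

theorem rsum_succ (p : ℕ → ℕ) (n : ℕ) : rsum p (n + 1) = rsum p n + p (n + 1) := rfl

theorem rsum_mono (p : ℕ → ℕ) : Monotone (rsum p) :=
  monotone_nat_of_le_succ fun n => by rw [rsum_succ]; omega

theorem le_rsum (p : ℕ → ℕ) {j n : ℕ} (h : j ≤ n) : p j ≤ rsum p n := by
  refine le_trans ?_ (rsum_mono p h)
  cases j with
  | zero => exact le_rfl
  | succ j => rw [rsum_succ]; omega

theorem comp_rsum {O : Set (ℕ →. ℕ)} {p : ℕ → ℕ} (hp : ComputableIn O p) :
    ComputableIn O (rsum p) := by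
  refine ComputableIn.nat_rec (f := fun n : ℕ => n) (g := fun _ : ℕ => p 0)
    (h := fun (_ : ℕ) (q : ℕ × ℕ) => q.2 + p (q.1 + 1)) ComputableIn.id (ComputableIn.const _) ?_
  exact (Primrec.nat_add.computableIn₂ (O := O)).comp
    (Primrec.snd.comp Primrec.snd).computableIn
    (hp.comp (Primrec.succ.comp (Primrec.fst.comp Primrec.snd)).computableIn)

/-- `l` is a prefix of the sequence `B`. -/
def IsPre (l : List ℕ) (B : ℕ → ℕ) : Prop := ∀ i < l.length, B i = l.getD i 0

theorem getD_prefixN {l l' : List ℕ} (h : l <+: l') {n : ℕ} (hn : n < l.length) :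
    l.getD n 0 = l'.getD n 0 := by
  obtain ⟨s, rfl⟩ := h
  simp [List.getElem?_append_left hn]

theorem isPre_of_prefix {l l' : List ℕ} (h : l <+: l') {B : ℕ → ℕ} (hB : IsPre l' B) :
    IsPre l B := fun i hi => by
  rw [hB i (lt_of_lt_of_le hi h.length_le), getD_prefixN h hi]

theorem prefix_leN {T : ℕ → List ℕ} (h1 : ∀ k, T k <+: T (k + 1)) {j k : ℕ} (h : j ≤ k) :
    T j <+: T k := by
  induction k with
  | zero => obtain rfl : j = 0 := by omega
            exact List.prefix_rfl
  | succ k ih =>
    rcases Nat.lt_or_ge k j with h' | h'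
    · obtain rfl : j = k + 1 := by omega
      exact List.prefix_rfl
    · exact (ih h').trans (h1 k)

/-- the limit of an increasing sequence of lists of numbers. -/
theorem isPre_lim {T : ℕ → List ℕ} (h1 : ∀ k, T k <+: T (k + 1)) {a : ℕ}
    (h2 : ∀ k, k < (T (k + a)).length) (k : ℕ) :
    IsPre (T k) fun n => (T (n + a)).getD n 0 := by
  intro i hi
  rcases Nat.le_total k (i + a) with h | h
  · exact (getD_prefixN (prefix_leN h1 h) hi).symm
  · exact getD_prefixN (prefix_leN h1 h) (h2 i)

theorem mem_of_isPre {l : List ℕ} {B : ℕ → ℕ} (hB : IsPre l B) {n : ℕ} (hn : n < l.length) :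
    B n ∈ l := by
  rw [hB n hn, List.getD_eq_getElem _ _ hn]
  exact List.getElem_mem hn

theorem exists_of_mem_isPre {l : List ℕ} {B : ℕ → ℕ} (hB : IsPre l B) {v : ℕ} (hv : v ∈ l) :
    ∃ n < l.length, B n = v := by
  obtain ⟨n, hn, rfl⟩ := List.getElem_of_mem hv
  exact ⟨n, hn, by rw [hB n hn, List.getD_eq_getElem _ _ hn]⟩

end MC92
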