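import Pool.Agent.LibSS92.SS1

/-!
Regressive functions: continuity on a cofinal set; the function is constant on a cone or its
values split above every node.
-/

open Encodable

namespace MC92

variable {m : MeasurableSpace (ℕ → ℕ)}

/-- The strategy `s` produces reals above the sequence of the opponent, on which `f` is computed by
the functional number `e`. -/
def Good1 (f : X → X) (s : List ℕ → ℕ) (e : ℕ) : Prop :=
  ∀ B, Red (gr B) (xB s B) ∧ ∀ k, ∃ j, W (xB s B) e k j = some (f (xB s B) k)

theorem comp_preN {O : Set (ℕ →. ℕ)} {σ : Type*} [Primcodable σ] {b : ℕ → σ}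
    (hb : ComputableIn O b) : ComputableIn O fun n : ℕ => (List.range n).map b :=
  ComputableIn.list_range_map (f := fun (_ : ℕ) n => b n) (n := fun n => n)
    (ComputableIn.comp hb ComputableIn.snd) ComputableIn.id

theorem game1 (hm : Determinacy m) {f : X → X} (hfm : Meas m f)
    (hreg : Cone fun x => Red (f x) x) : ∃ e s, Good1 f s e := by
  obtain ⟨c, hc⟩ := hreg
  have hfyy : MMap m fun a => f (yy a) := mmap_comp hm hfm continuous_yy
  have hyy : MMap m yy := mmap_of_continuous hm continuous_yy
  obtain ⟨e, s, h⟩ := colour_game hm (c := c) (P := fun e a => Red (gr (bN a)) (yy a) ∧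
    ∀ k, ∃ j, W (yy a) e k j = some (f (yy a) k)) (fun e => by
      have h1 : @MeasurableSet _ m {a : ℕ → ℕ | Red (gr (bN a)) (yy a)} :=
        meas_red (mmap_of_continuous hm continuous_gr) hyy
      have h2 : @MeasurableSet _ m
          {a : ℕ → ℕ | ∀ k, ∃ j, W (yy a) e k j = some (f (yy a) k)} := by
        have : {a : ℕ → ℕ | ∀ k, ∃ j, W (yy a) e k j = some (f (yy a) k)} =
            ⋂ k, ⋃ j, {a | W (yy a) e k j = some (f (yy a) k)} := by
          ext a
          simp only [Set.mem_ofPred_eq, Set.mem_iInter, Set.mem_iUnion]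
        rw [this]
        exact @MeasurableSet.iInter _ _ m _ _ fun k => @MeasurableSet.iUnion _ _ m _ _ fun j =>
          m1_W hfyy hyy e k j
      exact @MeasurableSet.inter _ m _ _ h1 h2)
    (fun x hx t ht => by
      obtain ⟨e, he⟩ := W_complete (hc x hx)
      refine ⟨e, ?_, ?_⟩
      · rw [yy_play2, bN_play2, red_iff]
        refine comp_gr ?_
        exact ComputableIn.comp
          (g := fun n : ℕ => (e, (List.range (n + 1)).map fun n => (x n).toNat)) ht
          ((ComputableIn.const e).pair
            ((comp_preN (comp_nat (comp_self x))).comp ComputableIn.succ))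
      · rw [yy_play2]
        exact he)
  refine ⟨e, s, fun B => ?_⟩
  have h1 := h B
  rw [yy_play1, bN_play1] at h1
  exact h1

variable {f : X → X} {s : List ℕ → ℕ} {e : ℕ}

theorem Good1.loc (hg : Good1 f s e) (B : ℕ → ℕ) (k : ℕ) :
    ∃ N, ∀ B' : ℕ → ℕ, (∀ i < N, B' i = B i) → f (xB s B') k = f (xB s B) k := by
  obtain ⟨j, hj⟩ := (hg B).2 k
  refine ⟨j, fun B' hB' => ?_⟩
  obtain ⟨j', hj'⟩ := (hg B').2 k
  have h1 : W (xB s B') e k j = some (f (xB s B) k) := by
    rw [← hj]
    exact W_local (xB_local s hB') e k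
  have h2 := W_mono h1 (le_max_left j j')
  have h3 := W_mono hj' (le_max_right j j')
  rw [h2] at h3
  exact (Option.some_injective _ h3).symm

theorem Good1.loc_fin (hg : Good1 f s e) (B : ℕ → ℕ) (k : ℕ) :
    ∃ N, ∀ B' : ℕ → ℕ, (∀ i < N, B' i = B i) → ∀ j < k, f (xB s B') j = f (xB s B) j := by
  induction k with
  | zero => exact ⟨0, fun _ _ j hj => absurd hj (Nat.not_lt_zero j)⟩
  | succ k ih =>
    obtain ⟨N, hN⟩ := ih
    obtain ⟨N', hN'⟩ := hg.loc B k
    refine ⟨max N N', fun B' hB' j hj => ?_⟩
    rcases Nat.lt_succ_iff_lt_or_eq.1 hj with h | h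
    · exact hN B' (fun i hi => hB' i (lt_of_lt_of_le hi (le_max_left _ _))) j h
    · subst h
      exact hN' B' fun i hi => hB' i (lt_of_lt_of_le hi (le_max_right _ _))

/-- `ρ` followed by the even numbers `2 u 0, 2 u 1, ...`. -/
def app (ρ : List ℕ) (u : ℕ → ℕ) : ℕ → ℕ := fun n =>
  if n < ρ.length then ρ.getD n 0 else 2 * u (n - ρ.length)

theorem isPre_app (ρ : List ℕ) (u : ℕ → ℕ) : IsPre ρ (app ρ u) := fun i hi => by
  simp only [app, if_pos hi]

/-- if the value does not depend on the even numbers after `ρ` then `f` is constant on a cone. -/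
theorem const_of_node (hf : Invariant f) (hg : Good1 f s e) {ρ : List ℕ}
    (h : ∀ u u' : ℕ → ℕ, f (xB s (app ρ u)) = f (xB s (app ρ u'))) :
    ∃ d, Cone fun x => Red (f x) d ∧ Red d (f x) := by
  obtain ⟨c, hc⟩ := exists_code s
  refine ⟨f (xB s (app ρ fun _ => 0)), c, fun x hx => ?_⟩
  set B := app ρ fun n => (x n).toNat with hB
  have hBx : ComputableIn {chi x} B := by
    have h1 : Primrec fun n : ℕ => decide (n < ρ.length) :=
      (Primrec.nat_lt.comp Primrec.id (Primrec.const ρ.length)).decide
    have h2 : ComputableIn {chi x} fun n : ℕ => 2 * (x (n - ρ.length)).toNat :=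
      ComputableIn.comp (f := fun n : ℕ => 2 * n) (g := fun n : ℕ => (x (n - ρ.length)).toNat)
        (Primrec.nat_mul.comp (Primrec.const 2) Primrec.id).computableIn
        ((comp_nat (comp_self x)).comp
          (Primrec.nat_sub.comp Primrec.id (Primrec.const ρ.length)).computableIn)
    have h3 : Primrec fun n : ℕ => ρ.getD n 0 := by
      have : Primrec fun n : ℕ => (ρ[n]?).getD 0 :=
        Primrec.option_getD.comp (Primrec.list_getElem?.comp (Primrec.const ρ) Primrec.id)
          (Primrec.const 0)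
      exact this.of_eq fun n => by rw [List.getD_eq_getElem?_getD]
    refine (ComputableIn.cond h1.computableIn h3.computableIn h2).of_eq fun n => ?_
    simp only [hB, app]
    by_cases hn : n < ρ.length <;> simp [hn]
  have h1 : Red (xB s B) x := red_iff.2 (comp_xB (comp_mono hx hc) hBx)
  have h2 : Red x (gr B) := by
    rw [red_iff]
    have h3 : Primrec fun n : ℕ => (n / 2 != 0) :=
      prim_ne0.comp (Primrec.nat_div.comp Primrec.id (Primrec.const 2))
    have h4 : ComputableIn {chi (gr B)} fun n : ℕ => B (n + ρ.length) :=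
      (comp_of_gr B).comp (Primrec.nat_add.comp Primrec.id (Primrec.const ρ.length)).computableIn
    refine (h3.computableIn.comp h4).of_eq fun n => ?_
    simp only [hB, app]
    rw [if_neg (by omega), Nat.add_sub_cancel]
    cases x n <;> rfl
  have h3 : Red x (xB s B) := red_trans h2 (hg B).1
  have h4 : f (xB s B) = f (xB s (app ρ fun _ => 0)) := h _ _
  rw [← h4]
  exact ⟨hf _ _ h3 h1, hf _ _ h1 h3⟩

/-- otherwise every node splits. -/
theorem split_of_node (hg : Good1 f s e) {ρ : List ℕ}
    (h : ¬ ∀ u u' : ℕ → ℕ, f (xB s (app ρ u)) = f (xB s (app ρ u'))) :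
    ∃ (k : ℕ) (ν : Bool → List ℕ), (∀ j, ∀ v ∈ ν j, v % 2 = 0) ∧
      ∀ j B, IsPre (ρ ++ ν j) B → f (xB s B) k = j := by
  push Not at h
  obtain ⟨u, u', hne⟩ := h
  obtain ⟨k, hk⟩ := Function.ne_iff.1 hne
  have hone : ∀ u : ℕ → ℕ, ∃ ν : List ℕ, (∀ v ∈ ν, v % 2 = 0) ∧
      ∀ B, IsPre (ρ ++ ν) B → f (xB s B) k = f (xB s (app ρ u)) k := by
    intro u
    obtain ⟨N, hN⟩ := hg.loc (app ρ u) k
    refine ⟨(List.range N).map fun i => 2 * u i, fun v hv => ?_, fun B hB => hN B fun i hi => ?_⟩
    · obtain ⟨i, _, rfl⟩ := List.mem_map.1 hv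
      omega
    · rw [hB i (by simp; omega)]
      simp only [app]
      split
      · rename_i h1
        rw [List.getD_append _ _ _ _ h1]
      · rename_i h1
        rw [List.getD_append_right _ _ _ _ (by omega), List.getD_eq_getElem?_getD]
        simp [show i - ρ.length < N by omega]
  obtain ⟨ν, h1, h2⟩ := hone u
  obtain ⟨ν', h1', h2'⟩ := hone u'
  rcases hv : f (xB s (app ρ u)) k with _ | _
  · have hv' : f (xB s (app ρ u')) k = true := by
      rw [hv] at hk
      cases h3 : f (xB s (app ρ u')) k
      · rw [h3] at hk; exact absurd rfl hk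
      · rfl
    refine ⟨k, fun j => if j then ν' else ν, fun j => ?_, fun j B hB => ?_⟩
    · cases j
      · exact h1
      · exact h1'
    · cases j
      · rw [h2 B hB, hv]
      · rw [h2' B hB, hv']
  · have hv' : f (xB s (app ρ u')) k = false := by
      rw [hv] at hk
      cases h3 : f (xB s (app ρ u')) k
      · rfl
      · rw [h3] at hk; exact absurd rfl hk
    refine ⟨k, fun j => if j then ν else ν', fun j => ?_, fun j B hB => ?_⟩
    · cases j
      · exact h1'
      · exact h1
    · cases j
      · rw [h2' B hB, hv']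
      · rw [h2 B hB, hv]

end MC92
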