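import Pool.Agent.LibSS92.SS2

/-!
Regressive functions: domination.
-/

open Encodable

namespace MC92

variable {m : MeasurableSpace (ℕ → ℕ)} {f : X → X} {s : List ℕ → ℕ} {e : ℕ}

/-- Every function computable from `x` is dominated by a function computable from `f x`. -/
def Dom (f : X → X) (x : X) : Prop :=
  ∀ g : ℕ → ℕ, Monotone g → ComputableIn {chi x} g →
    ∃ q : ℕ → ℕ, ComputableIn {chi (f x)} q ∧ ∃ n0, ∀ n, n0 ≤ n → g n ≤ q n

/-- The tree of nodes. -/
def nd (ν : List ℕ → Bool → List ℕ) : List (Bool × Bool) → List ℕ := fun c =>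
  (c.foldl (fun (p : List ℕ × List Bool) (b : Bool × Bool) =>
    ((p.1 ++ [cd 0 (p.2 ++ [b.1])]) ++ ν (p.1 ++ [cd 0 (p.2 ++ [b.1])]) b.2, p.2 ++ [b.1]))
    ([], [])).1

theorem nd_aux (ν : List ℕ → Bool → List ℕ) (c : List (Bool × Bool)) :
    (c.foldl (fun (p : List ℕ × List Bool) (b : Bool × Bool) =>
      ((p.1 ++ [cd 0 (p.2 ++ [b.1])]) ++ ν (p.1 ++ [cd 0 (p.2 ++ [b.1])]) b.2, p.2 ++ [b.1]))
      ([], [])).2 = c.map Prod.fst := by
  induction c using List.reverseRecOn with
  | nil => rfl
  | append_singleton c b ih =>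
    rw [List.foldl_append, List.map_append]
    simp only [List.foldl_cons, List.foldl_nil, ih, List.map_cons, List.map_nil]

/-- the node before the splitting. -/
def nd' (ν : List ℕ → Bool → List ℕ) (c : List (Bool × Bool)) (b : Bool) : List ℕ :=
  nd ν c ++ [cd 0 (c.map Prod.fst ++ [b])]

theorem nd_snoc (ν : List ℕ → Bool → List ℕ) (c : List (Bool × Bool)) (b : Bool × Bool) :
    nd ν (c ++ [b]) = nd' ν c b.1 ++ ν (nd' ν c b.1) b.2 := by
  have h := nd_aux ν c
  unfold nd nd' at *
  rw [List.foldl_append]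
  simp only [List.foldl_cons, List.foldl_nil, h]
  rfl

/-- The state of the diagonalization: the choices and the satisfied requirements. -/
noncomputable def stp (ν : List ℕ → Bool → List ℕ) (kk : List ℕ → ℕ)
    (p : List (Bool × Bool) × List ℕ) (v : Bool × List Bool) :
    List (Bool × Bool) × List ℕ :=
  match (List.range (p.1.length + 1)).find? (fun e => decide (e ∉ p.2) &&
      (W (fun n => v.2.getD n false) e (kk (nd' ν p.1 v.1)) v.2.length).isSome) with
  | some e => (p.1 ++ [(v.1,
      ! (W (fun n => v.2.getD n false) e (kk (nd' ν p.1 v.1)) v.2.length).getD false)], e :: p.2)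
  | none => (p.1 ++ [(v.1, false)], p.2)

/-- the states. -/
noncomputable def sts (ν : List ℕ → Bool → List ℕ) (kk : List ℕ → ℕ)
    (l : List (Bool × List Bool)) : List (Bool × Bool) × List ℕ :=
  l.foldl (stp ν kk) ([], [])

theorem sts_snoc (ν : List ℕ → Bool → List ℕ) (kk : List ℕ → ℕ)
    (l : List (Bool × List Bool)) (v : Bool × List Bool) :
    sts ν kk (l ++ [v]) = stp ν kk (sts ν kk l) v := by
  unfold sts
  rw [List.foldl_append]
  rfl

theorem stp_fst (ν : List ℕ → Bool → List ℕ) (kk : List ℕ → ℕ)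
    (p : List (Bool × Bool) × List ℕ) (v : Bool × List Bool) :
    ∃ j, (stp ν kk p v).1 = p.1 ++ [(v.1, j)] := by
  unfold stp
  split
  · exact ⟨_, rfl⟩
  · exact ⟨_, rfl⟩

theorem stp_snd (ν : List ℕ → Bool → List ℕ) (kk : List ℕ → ℕ)
    (p : List (Bool × Bool) × List ℕ) (v : Bool × List Bool) {e : ℕ} (h : e ∈ p.2) :
    e ∈ (stp ν kk p v).2 := by
  unfold stp
  split
  · exact List.mem_cons_of_mem _ h
  · exact h

/-- monotone bounds. -/
theorem exists_strict (K : ℕ → ℕ) : ∃ M : ℕ → ℕ, StrictMono M ∧ ∀ n, K n ≤ M n := by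
  refine ⟨fun n => rsum K n + n, strictMono_nat_of_lt_succ fun n => ?_, fun n => ?_⟩
  · have := rsum_mono K (Nat.le_succ n)
    simp only [Nat.succ_eq_add_one] at this
    omega
  · exact le_trans (le_rsum K (le_refl n)) (Nat.le_add_right _ _)

theorem exists_pos_bound (ν : List ℕ → Bool → List ℕ) (kk : List ℕ → ℕ) :
    ∃ M : ℕ → ℕ, StrictMono M ∧ ∀ c b, kk (nd' ν c b) ≤ M c.length := by
  have h : ∀ i, ∃ K, ∀ c : List (Bool × Bool), c.length = i → ∀ b, kk (nd' ν c b) ≤ K := by
    intro i
    have hfin : {c : List (Bool × Bool) | c.length = i}.Finite := List.finite_length_eq _ i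
    obtain ⟨K, hK⟩ := (hfin.image fun c => kk (nd' ν c true) + kk (nd' ν c false)).bddAbove
    refine ⟨K, fun c hc b => ?_⟩
    have := hK ⟨c, hc, rfl⟩
    simp only at this
    cases b <;> omega
  choose K hK using h
  obtain ⟨M, h1, h2⟩ := exists_strict K
  exact ⟨M, h1, fun c b => le_trans (hK _ c rfl b) (h2 _)⟩

theorem exists_between {M : ℕ → ℕ} (hM : StrictMono M) {I n : ℕ} (h : M I ≤ n) :
    ∃ i, I ≤ i ∧ M i ≤ n ∧ n < M (i + 1) := by
  classical
  have hex : ∃ i, n < M (i + 1) := ⟨n, by have := hM.id_le (n + 1); simp only [id] at this; omega⟩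
  refine ⟨Nat.find hex, ?_, ?_, Nat.find_spec hex⟩
  · by_contra hcon
    have h1 := Nat.find_spec hex
    have h2 : M (Nat.find hex + 1) ≤ M I := hM.monotone (by omega)
    omega
  · rcases Nat.eq_zero_or_pos (Nat.find hex) with h0 | h0
    · rw [h0]
      exact le_trans (hM.monotone (Nat.zero_le I)) h
    · obtain ⟨j, hj⟩ : ∃ j, Nat.find hex = j + 1 := ⟨Nat.find hex - 1, by omega⟩
      have := Nat.find_min hex (m := j) (by omega)
      rw [hj]
      omega

theorem dom_of_split (hf : Invariant f) (hg : Good1 f s e) {c0 : X}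
    (hreg : ∀ x, Red c0 x → Red (f x) x)
    (hsp : ∀ ρ : List ℕ, ∃ (k : ℕ) (ν : Bool → List ℕ), (∀ j, ∀ v ∈ ν j, v % 2 = 0) ∧
      ∀ j B, IsPre (ρ ++ ν j) B → f (xB s B) k = j) :
    Cone (Dom f) := by
  choose kk ν hν1 hν2 using hsp
  obtain ⟨M, hM1, hM2⟩ := exists_pos_bound ν kk
  obtain ⟨r1, hr1⟩ := exists_code s
  obtain ⟨r2, hr2⟩ := exists_code M
  obtain ⟨r3, hr3⟩ := exists_code fun l => nd ν (sts ν kk l).1
  refine ⟨join (join c0 r1) (join r2 r3), fun x hx g hgm hgx => ?_⟩
  have hx0 : Red c0 x :=
    red_trans (red_trans (red_join_left _ _) (red_join_left _ _)) hx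
  have hx1 : ComputableIn {chi x} s :=
    comp_mono (red_trans (red_trans (red_join_right _ _) (red_join_left _ _)) hx) hr1
  have hx2 : ComputableIn {chi x} M :=
    comp_mono (red_trans (red_trans (red_join_left _ _) (red_join_right _ _)) hx) hr2
  have hx3 : ComputableIn {chi x} fun l => nd ν (sts ν kk l).1 :=
    comp_mono (red_trans (red_trans (red_join_right _ _) (red_join_right _ _)) hx) hr3
  by_contra hcon
  push Not at hcon
  set w := f x with hw
  have hwx : ComputableIn {chi x} w := red_iff.1 (hreg x hx0)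
  -- the inputs
  let Gi : ℕ → ℕ := fun i => g (M (i + 1))
  have hGi : ComputableIn {chi x} Gi := hgx.comp (hx2.comp ComputableIn.succ)
  let v : ℕ → Bool × List Bool := fun i => (x i, pre w (Gi i))
  have hv : ComputableIn {chi x} v := (comp_self x).pair ((comp_pre hwx).comp hGi)
  let S : ℕ → List (Bool × Bool) × List ℕ := fun i => sts ν kk ((List.range i).map v)
  have hS0 : S 0 = ([], []) := rfl
  have hS1 : ∀ i, S (i + 1) = stp ν kk (S i) (v i) := fun i => by
    simp only [S]
    rw [List.range_succ, List.map_append, List.map_cons, List.map_nil, sts_snoc]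
  have hbits : ∀ i, (S i).1.map Prod.fst = pre x i := by
    intro i
    induction i with
    | zero => rfl
    | succ i ih =>
      obtain ⟨j, hj⟩ := stp_fst ν kk (S i) (v i)
      rw [hS1, hj, List.map_append, ih, pre_succ]
      rfl
  have hlen : ∀ i, (S i).1.length = i := fun i => by
    have := congrArg List.length (hbits i)
    simpa using this
  have hnode : ∀ i, ∃ j, nd ν (S (i + 1)).1 =
      nd' ν (S i).1 (x i) ++ ν (nd' ν (S i).1 (x i)) j ∧
      (S (i + 1)).1 = (S i).1 ++ [(x i, j)] := by
    intro i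
    obtain ⟨j, hj⟩ := stp_fst ν kk (S i) (v i)
    refine ⟨j, ?_, ?_⟩
    · rw [hS1, hj, nd_snoc]
    · rw [hS1, hj]
  have hpre : ∀ i, nd ν (S i).1 <+: nd ν (S (i + 1)).1 := by
    intro i
    obtain ⟨j, hj, _⟩ := hnode i
    rw [hj]
    unfold nd'
    rw [List.append_assoc]
    exact List.prefix_append _ _
  have hlenN : ∀ i, i ≤ (nd ν (S i).1).length := by
    intro i
    induction i with
    | zero => exact Nat.zero_le _
    | succ i ih =>
      obtain ⟨j, hj, _⟩ := hnode i
      rw [hj]
      unfold nd'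
      simp only [List.length_append, List.length_cons, List.length_nil]
      omega
  let B : ℕ → ℕ := fun n => (nd ν (S (n + 1)).1).getD n 0
  have hB : ∀ i, IsPre (nd ν (S i).1) B := fun i =>
    isPre_lim (T := fun i => nd ν (S i).1) (a := 1) hpre (fun k => by
      have := hlenN (k + 1)
      omega) i
  have hBx : ComputableIn {chi x} B := by
    have h1 : ComputableIn {chi x} fun n : ℕ => nd ν (S (n + 1)).1 :=
      ComputableIn.comp (f := fun l => nd ν (sts ν kk l).1)
        (g := fun n : ℕ => (List.range (n + 1)).map v) hx3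
        ((comp_preN hv).comp ComputableIn.succ)
    have h2 : ComputableIn {chi x} fun n : ℕ => (nd ν (S (n + 1)).1)[n]? :=
      (Primrec.list_getElem?.computableIn₂ (O := {chi x})).comp h1 ComputableIn.id
    refine (h2.option_getD (ComputableIn.const 0)).of_eq fun n => ?_
    simp only [B, List.getD_eq_getElem?_getD]
  have hentry : ∀ i, ∀ u ∈ nd ν (S i).1, u % 2 = 1 → ∃ J k, u = cd J (pre x k) := by
    intro i
    induction i with
    | zero => intro u hu; exact absurd hu (by simp [hS0, nd])
    | succ i ih =>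
      intro u hu hodd
      obtain ⟨j, hj, _⟩ := hnode i
      rw [hj] at hu
      unfold nd' at hu
      rcases List.mem_append.1 hu with h1 | h1
      · rcases List.mem_append.1 h1 with h2 | h2
        · exact ih u h2 hodd
        · refine ⟨0, i + 1, ?_⟩
          rw [List.mem_singleton.1 h2, hbits, ← pre_succ]
      · have := hν1 _ j u h1
        omega
  have hxgr : Red x (gr B) := by
    refine decode_red (fun n hodd => ?_) (fun t => ?_)
    · have h1 : n < (nd ν (S (n + 1)).1).length := by
        have := hlenN (n + 1)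
        omega
      exact hentry (n + 1) _ (mem_of_isPre (hB (n + 1)) h1) hodd
    · obtain ⟨j, hj, _⟩ := hnode t
      have h1 : cd 0 (pre x (t + 1)) ∈ nd ν (S (t + 1)).1 := by
        rw [hj]
        unfold nd'
        rw [hbits, ← pre_succ]
        simp
      obtain ⟨n, _, hn⟩ := exists_of_mem_isPre (hB (t + 1)) h1
      exact ⟨n, 0, t + 1, Nat.lt_succ_self t, hn⟩
  have hxx : Red x (xB s B) := red_trans hxgr (hg B).1
  have hxx' : Red (xB s B) x := red_iff.2 (comp_xB hx1 hBx)
  obtain ⟨e1, he1⟩ := W_complete (hf _ _ hxx' hxx : Red (f (xB s B)) (f x))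
  rw [← hw] at he1
  -- convergence times
  have htot : ∀ k, ∃ j, (W w e1 k j).isSome = true := fun k => by
    obtain ⟨j, hj⟩ := he1 k
    exact ⟨j, by rw [hj]; rfl⟩
  have hWc : ComputableIn₂ {chi w} fun k j : ℕ => (W w e1 k j).isSome := by
    have h1 : ComputableIn {chi w} fun p : ℕ × ℕ => W w e1 p.1 p.2 :=
      ComputableIn.comp (g := fun p : ℕ × ℕ => (e1, p.1, p.2)) (W_comp (comp_self w))
        ((Primrec.const e1).pair (Primrec.fst.pair Primrec.snd)).computableIn
    exact ComputableIn.comp (f := fun o : Option Bool => o.isSome)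
      (g := fun p : ℕ × ℕ => W w e1 p.1 p.2) Primrec.option_isSome.computableIn h1
  have hq0 := ComputableIn.find hWc htot
  set q0 : ℕ → ℕ := fun k => Nat.find (htot k) with hq0def
  have hq0spec : ∀ k, (W w e1 k (q0 k)).isSome = true := fun k => Nat.find_spec (htot k)
  have hesc : ∀ n0, ∃ n, n0 ≤ n ∧ rsum q0 n < g n := fun n0 => by
    obtain ⟨n, h1, h2⟩ := hcon (rsum q0) (comp_rsum hq0) n0
    exact ⟨n, h1, h2⟩
  let ps : ℕ → ℕ := fun i => kk (nd' ν (S i).1 (x i))
  have hps : ∀ i, ps i ≤ M i := fun i => by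
    have := hM2 (S i).1 (x i)
    rwa [hlen] at this
  have hgood : ∀ I, ∃ i, I ≤ i ∧ (W w e1 (ps i) (Gi i)).isSome = true := by
    intro I
    obtain ⟨n, h1, h2⟩ := hesc (M I)
    obtain ⟨i, h3, h4, h5⟩ := exists_between hM1 h1
    refine ⟨i, h3, ?_⟩
    have h6 : q0 (ps i) ≤ Gi i := by
      have h7 : q0 (ps i) ≤ rsum q0 n := le_rsum q0 (le_trans (hps i) h4)
      have h8 : g n ≤ Gi i := hgm (le_of_lt h5)
      omega
    obtain ⟨b, hb⟩ := Option.isSome_iff_exists.1 (hq0spec (ps i))
    rw [W_mono hb h6]
    rfl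
  -- the search at stage `i`
  let F : ℕ → Option ℕ := fun i => (List.range ((S i).1.length + 1)).find?
    (fun e => decide (e ∉ (S i).2) &&
      (W (fun n => (v i).2.getD n false) e (kk (nd' ν (S i).1 (v i).1)) (v i).2.length).isSome)
  have hWloc : ∀ i e', W (fun n => (v i).2.getD n false) e' (kk (nd' ν (S i).1 (v i).1))
      (v i).2.length = W w e' (ps i) (Gi i) := by
    intro i e'
    have h1 : (v i).2.length = Gi i := by simp [v]
    rw [h1]
    exact W_local (fun j hj => pre_getD w hj false) e' _
  have hstep1 : ∀ i e', F i = some e' → (S (i + 1)).2 = e' :: (S i).2 ∧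
      (S (i + 1)).1 = (S i).1 ++ [(x i, ! (W w e' (ps i) (Gi i)).getD false)] := by
    intro i e' he'
    have h1 : stp ν kk (S i) (v i) = ((S i).1 ++ [(x i,
        ! (W w e' (ps i) (Gi i)).getD false)], e' :: (S i).2) := by
      unfold stp
      simp only [F] at he'
      rw [he']
      simp only
      rw [hWloc]
    rw [hS1, h1]
    exact ⟨rfl, rfl⟩
  have hne1 : ∀ i, F i ≠ some e1 := by
    intro i hFi
    obtain ⟨_, h1⟩ := hstep1 i e1 hFi
    obtain ⟨j, h2, h3⟩ := hnode i
    have hj : j = ! (W w e1 (ps i) (Gi i)).getD false := by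
      rw [h3] at h1
      have := List.append_cancel_left h1
      simpa using this
    have h4 : (W w e1 (ps i) (Gi i)).isSome = true := by
      have h5 := List.find?_some hFi
      simp only [Bool.and_eq_true] at h5
      rw [hWloc] at h5
      exact h5.2
    obtain ⟨b, hb⟩ := Option.isSome_iff_exists.1 h4
    have h6 : f (xB s B) (ps i) = j := by
      refine hν2 _ j B ?_
      have := hB (i + 1)
      rw [h2] at this
      exact this
    obtain ⟨j', hj'⟩ := he1 (ps i)
    have h7 := W_mono hb (le_max_left (Gi i) j')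
    have h8 := W_mono hj' (le_max_right (Gi i) j')
    rw [h7] at h8
    have h9 := Option.some_injective _ h8
    rw [hb, Option.getD_some, h9] at hj
    have h10 : f (xB s B) (ps i) = ! f (xB s B) (ps i) := h6.trans hj
    revert h10
    cases f (xB s B) (ps i) <;> simp
  have hmono : ∀ e' i d, e' ∈ (S i).2 → e' ∈ (S (i + d)).2 := by
    intro e' i d h
    induction d with
    | zero => exact h
    | succ d ih =>
      rw [← Nat.add_assoc, hS1]
      exact stp_snd ν kk _ _ ih
  have hmono' : ∀ e' i i', i ≤ i' → e' ∈ (S i).2 → e' ∈ (S i').2 := by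
    intro e' i i' h h'
    obtain ⟨d, rfl⟩ := Nat.exists_eq_add_of_le h
    exact hmono e' i d h'
  have hstable : ∀ E, ∃ I, ∀ e' < E, ∀ i, I ≤ i → e' ∈ (S i).2 ∨ ∀ i', e' ∉ (S i').2 := by
    intro E
    induction E with
    | zero => exact ⟨0, fun e' he' => absurd he' (Nat.not_lt_zero _)⟩
    | succ E ih =>
      obtain ⟨I, hI⟩ := ih
      by_cases hE : ∃ i', E ∈ (S i').2
      · obtain ⟨i', hi'⟩ := hE
        refine ⟨max I i', fun e' he' i hi => ?_⟩
        rcases Nat.lt_succ_iff_lt_or_eq.1 he' with h | h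
        · exact hI e' h i (le_trans (le_max_left _ _) hi)
        · subst h
          exact Or.inl (hmono' _ i' i (le_trans (le_max_right _ _) hi) hi')
      · refine ⟨I, fun e' he' i hi => ?_⟩
        rcases Nat.lt_succ_iff_lt_or_eq.1 he' with h | h
        · exact hI e' h i hi
        · subst h
          exact Or.inr fun i' hi' => hE ⟨i', hi'⟩
  have hnot1 : ∀ i, e1 ∉ (S i).2 := by
    intro i
    induction i with
    | zero => simp [hS0]
    | succ i ih =>
      rcases hFi : F i with _ | e'
      · have h1 : (stp ν kk (S i) (v i)).2 = (S i).2 := by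
          unfold stp
          simp only [F] at hFi
          rw [hFi]
        rw [hS1, h1]
        exact ih
      · rw [(hstep1 i e' hFi).1]
        intro hmem
        rcases List.mem_cons.1 hmem with h1 | h1
        · rw [h1] at hne1
          exact hne1 i hFi
        · exact ih h1
  obtain ⟨I, hI⟩ := hstable (e1 + 1)
  obtain ⟨i, hi1, hi2⟩ := hgood (max I e1)
  have hsat : (decide (e1 ∉ (S i).2) &&
      (W (fun n => (v i).2.getD n false) e1 (kk (nd' ν (S i).1 (v i).1))
        (v i).2.length).isSome) = true := by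
    rw [hWloc, hi2, Bool.and_true]
    exact decide_eq_true (hnot1 i)
  rcases hFi : F i with _ | e'
  · have := List.find?_eq_none.1 hFi e1 (List.mem_range.2 (by
      rw [hlen]
      have := le_max_right I e1
      omega))
    exact this hsat
  · have hle : e' ≤ e1 := by
      by_contra hlt
      push Not at hlt
      obtain ⟨h1, as, bs, h2, h3⟩ := List.find?_eq_some_iff_append.1 hFi
      have h4 : e1 ∈ as := by
        have hmem : e1 ∈ List.range ((S i).1.length + 1) := List.mem_range.2 (by
          rw [hlen]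
          have := le_max_right I e1
          omega)
        rw [h2] at hmem
        rcases List.mem_append.1 hmem with h5 | h5
        · exact h5
        · exfalso
          have hs := List.pairwise_lt_range (n := (S i).1.length + 1)
          rw [h2, List.pairwise_append] at hs
          have h6 := hs.2.1
          rw [List.pairwise_cons] at h6
          rcases List.mem_cons.1 h5 with h7 | h7
          · omega
          · have := h6.1 e1 h7
            omega
      have := h3 e1 h4
      rw [hsat] at this
      exact absurd this (by simp)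
    have h1 : e' ∈ (S (i + 1)).2 := by
      rw [(hstep1 i e' hFi).1]
      exact List.mem_cons_self
    have h2 : e' ∉ (S i).2 := by
      have h5 := List.find?_some hFi
      simp only [Bool.and_eq_true, decide_eq_true_eq] at h5
      exact h5.1
    rcases hI e' (by omega) i (le_trans (le_max_left _ _) hi1) with h3 | h3
    · exact h2 h3
    · exact h3 _ h1

end MC92
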