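import Pool.Agent.LibSS92.SS3

/-!
Regressive functions: the second game.
-/

open Encodable

namespace MC92

variable {m : MeasurableSpace (ℕ → ℕ)}

/-- A computation from `w` with the argument `n` converges at the stage `s`. -/
def Conv (w : X) (e n s : ℕ) : Prop := W w e (Nat.pair n s.unpair.1) s.unpair.2 = some true

theorem conv_local {w w' : X} {s : ℕ} (h : ∀ i < s, w i = w' i) (e n : ℕ) :
    Conv w e n s ↔ Conv w' e n s := by
  unfold Conv
  rw [W_local fun i hi => h i (by have := Nat.unpair_right_le s; omega)]

/-- functions computable from `w` have large indices, and the convergence takes long. -/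
theorem exists_index {w : X} {q : ℕ → ℕ} (hq : ComputableIn {chi w} q) (N : ℕ) :
    ∃ e, N ≤ e ∧ ∀ n, (∃ s, Conv w e n s) ∧ ∀ s, Conv w e n s → q n ≤ s := by
  have h1 : ∀ j : ℕ, ∃ c, ∀ k, ∃ s, W w c k s = some (gr (fun n => q n + j) k) := fun j =>
    W_complete (red_iff.2 (comp_gr (ComputableIn.comp (f := fun a : ℕ => a + j) (g := q)
      (Primrec.nat_add.comp Primrec.id (Primrec.const j)).computableIn hq)))
  choose c hc using h1
  have hval : ∀ j k s b, W w (c j) k s = some b → b = gr (fun n => q n + j) k := by
    intro j k s b hb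
    obtain ⟨s', hs'⟩ := hc j k
    have h2 := W_mono hb (le_max_left s s')
    have h3 := W_mono hs' (le_max_right s s')
    rw [h2] at h3
    exact Option.some_injective _ h3
  have hinj : Function.Injective c := by
    intro j j' hj
    obtain ⟨s, hs⟩ := hc j (Nat.pair 0 (q 0 + j))
    rw [hj] at hs
    have h2 := hval j' _ s _ hs
    simp only [gr, Nat.unpair_pair, decide_true] at h2
    have := of_decide_eq_true h2.symm
    omega
  have hbig : ∃ j, N ≤ c j := by
    by_contra hcon
    push Not at hcon
    exact not_injective_infinite_finite (fun j => (⟨c j, hcon j⟩ : Fin N)) fun j j' h =>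
      hinj (by simpa using h)
  obtain ⟨j, hj⟩ := hbig
  refine ⟨c j, hj, fun n => ⟨?_, fun s hs => ?_⟩⟩
  · obtain ⟨s, hs⟩ := hc j (Nat.pair n (q n + j))
    refine ⟨Nat.pair (q n + j) s, ?_⟩
    unfold Conv
    rw [Nat.unpair_pair]
    simp only
    rw [hs]
    simp [gr]
  · have h2 := hval j _ _ _ hs
    simp only [gr, Nat.unpair_pair] at h2
    have h3 := of_decide_eq_true h2.symm
    have h4 := Nat.unpair_left_le s
    omega

/-- The strategy `s` produces reals above the sequence `B` of the opponent, on which `f` is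
computed by the functional number `e'`, and the computation number `e` from the value of `f`
converges at `n` after the stage `B n`. -/
def Good2 (f : X → X) (s : List ℕ → ℕ) (e' e : ℕ) : Prop :=
  Good1 f s e' ∧ ∀ B n, e ≤ n → (∃ j, Conv (f (xB s B)) e n j) ∧
    ∀ j, Conv (f (xB s B)) e n j → B n ≤ j

theorem game2 (hm : Determinacy m) {f : X → X} (hfm : Meas m f)
    (hreg : Cone fun x => Red (f x) x) (hdom : Cone (Dom f)) : ∃ e' e s, Good2 f s e' e := by
  obtain ⟨c, hc⟩ := cone_and hreg hdom
  have hfyy : MMap m fun a => f (yy a) := mmap_comp hm hfm continuous_yy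
  have hyy : MMap m yy := mmap_of_continuous hm continuous_yy
  obtain ⟨i, s, h⟩ := colour_game hm (c := c) (P := fun i a => Red (gr (bN a)) (yy a) ∧
    (∀ k, ∃ j, W (yy a) i.unpair.1 k j = some (f (yy a) k)) ∧
    ∀ n, i.unpair.2 ≤ n → (∃ j, Conv (f (yy a)) i.unpair.2 n j) ∧
      ∀ j, Conv (f (yy a)) i.unpair.2 n j → bN a n ≤ j) (fun i => by
      have h1 : @MeasurableSet _ m {a : ℕ → ℕ | Red (gr (bN a)) (yy a)} :=
        meas_red (mmap_of_continuous hm continuous_gr) hyy
      have h2 : @MeasurableSet _ m
          {a : ℕ → ℕ | ∀ k, ∃ j, W (yy a) i.unpair.1 k j = some (f (yy a) k)} := by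
        have : {a : ℕ → ℕ | ∀ k, ∃ j, W (yy a) i.unpair.1 k j = some (f (yy a) k)} =
            ⋂ k, ⋃ j, {a | W (yy a) i.unpair.1 k j = some (f (yy a) k)} := by
          ext a
          simp only [Set.mem_ofPred_eq, Set.mem_iInter, Set.mem_iUnion]
        rw [this]
        exact @MeasurableSet.iInter _ _ m _ _ fun k => @MeasurableSet.iUnion _ _ m _ _ fun j =>
          m1_W hfyy hyy _ k j
      have h0 : ∀ n j, @MeasurableSet _ m {a : ℕ → ℕ | Conv (f (yy a)) i.unpair.2 n j} :=
        fun n j => m1_W (F := fun _ _ => true) (fun k => by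
          have : {a : ℕ → ℕ | true = true} = Set.univ := by ext a; simp
          rw [this]
          exact @MeasurableSet.univ _ m) hfyy _ _ _
      have hle : ∀ n j : ℕ, @MeasurableSet _ m {a : ℕ → ℕ | bN a n ≤ j} := by
        intro n j
        refine m1_open hm ?_
        have h5 : Continuous fun a : ℕ → ℕ => a (2 * n + 1) := continuous_apply _
        exact (isOpen_discrete (Set.Iic j)).preimage h5
      have h3 : @MeasurableSet _ m {a : ℕ → ℕ | ∀ n, i.unpair.2 ≤ n →
          (∃ j, Conv (f (yy a)) i.unpair.2 n j) ∧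
            ∀ j, Conv (f (yy a)) i.unpair.2 n j → bN a n ≤ j} := by
        have : {a : ℕ → ℕ | ∀ n, i.unpair.2 ≤ n →
            (∃ j, Conv (f (yy a)) i.unpair.2 n j) ∧
              ∀ j, Conv (f (yy a)) i.unpair.2 n j → bN a n ≤ j} =
            ⋂ n, ⋂ _ : i.unpair.2 ≤ n, ((⋃ j, {a | Conv (f (yy a)) i.unpair.2 n j}) ∩
              ⋂ j, ({a | Conv (f (yy a)) i.unpair.2 n j}ᶜ ∪ {a | bN a n ≤ j})) := by
          ext a
          simp only [Set.mem_ofPred_eq, Set.mem_iInter, Set.mem_iUnion, Set.mem_inter_iff,
            Set.mem_union, Set.mem_compl_iff, imp_iff_not_or]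
        rw [this]
        exact @MeasurableSet.iInter _ _ m _ _ fun n => @MeasurableSet.iInter _ _ m _ _ fun _ =>
          @MeasurableSet.inter _ m _ _
            (@MeasurableSet.iUnion _ _ m _ _ fun j => h0 n j)
            (@MeasurableSet.iInter _ _ m _ _ fun j => @MeasurableSet.union _ m _ _
              (@MeasurableSet.compl _ _ m (h0 n j)) (hle n j))
      exact @MeasurableSet.inter _ m _ _ h1 (@MeasurableSet.inter _ m _ _ h2 h3))
    (fun x hx t ht => by
      obtain ⟨hx1, hx2⟩ := hc x hx
      obtain ⟨e', he'⟩ := W_complete hx1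
      have hb : ComputableIn {chi x} fun p : ℕ × ℕ =>
          t p.1 ((List.range (p.2 + 1)).map fun n => (x n).toNat) :=
        ComputableIn.comp (f := fun p : ℕ × List ℕ => t p.1 p.2)
          (g := fun p : ℕ × ℕ => (p.1, (List.range (p.2 + 1)).map fun n => (x n).toNat)) ht
          (ComputableIn.fst.pair (ComputableIn.comp
            (f := fun n : ℕ => (List.range (n + 1)).map fun n => (x n).toNat)
            (g := fun p : ℕ × ℕ => p.2) ((comp_preN (comp_nat (comp_self x))).comp
              ComputableIn.succ) ComputableIn.snd))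
      -- a bound for all the answers at `n` of the strategies of small number
      let p0 : ℕ → ℕ := fun n => rsum (fun i =>
        t i ((List.range (n + 1)).map fun n => (x n).toNat)) ((n + 1) ^ 2)
      have hp0 : ComputableIn {chi x} p0 := by
        have h1 := ComputableIn.nat_rec (O := {chi x}) (f := fun n : ℕ => (n + 1) ^ 2)
          (g := fun n : ℕ => t 0 ((List.range (n + 1)).map fun n => (x n).toNat))
          (h := fun (n : ℕ) (q : ℕ × ℕ) => q.2 +
            t (q.1 + 1) ((List.range (n + 1)).map fun n => (x n).toNat))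
          (by
            have : Primrec fun n : ℕ => (n + 1) * (n + 1) :=
              Primrec.nat_mul.comp Primrec.succ Primrec.succ
            exact this.computableIn.of_eq fun n => by ring)
          (ComputableIn.comp (g := fun n : ℕ => (0, n)) hb
            ((Primrec.const 0).pair Primrec.id).computableIn)
          ((Primrec.nat_add.computableIn₂ (O := {chi x})).comp
            (Primrec.snd.comp Primrec.snd).computableIn
            (ComputableIn.comp (g := fun p : ℕ × (ℕ × ℕ) => (p.2.1 + 1, p.1)) hb
              ((Primrec.succ.comp (Primrec.fst.comp Primrec.snd)).pair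
                Primrec.fst).computableIn))
        exact h1
      obtain ⟨q, hq, n0, hn0⟩ := hx2 (rsum p0) (rsum_mono p0) (comp_rsum hp0)
      obtain ⟨e, he, hconv⟩ := exists_index hq (max n0 e')
      refine ⟨Nat.pair e' e, ?_, ?_, ?_⟩
      · rw [yy_play2, bN_play2, red_iff]
        exact comp_gr (ComputableIn.comp (g := fun n : ℕ => (Nat.pair e' e, n)) hb
          ((Primrec.const _).pair Primrec.id).computableIn)
      · rw [yy_play2, Nat.unpair_pair]
        exact he'
      · rw [yy_play2, Nat.unpair_pair]
        intro n hn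
        refine ⟨(hconv n).1, fun j hj => ?_⟩
        rw [bN_play2]
        have h1 : t (Nat.pair e' e) ((List.range (n + 1)).map fun n => (x n).toNat) ≤ p0 n := by
          refine le_rsum (fun i => t i ((List.range (n + 1)).map fun n => (x n).toNat)) ?_
          have h2 := Nat.pair_lt_max_add_one_sq e' e
          have h3 : max e' e + 1 ≤ n + 1 := by
            have : e' ≤ e := le_trans (le_max_right n0 e') he
            simp only at hn
            omega
          exact le_trans (le_of_lt h2) (Nat.pow_le_pow_left h3 2)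
        have h4 : p0 n ≤ rsum p0 n := le_rsum p0 (le_refl n)
        have h5 : rsum p0 n ≤ q n := hn0 n (by
          have : n0 ≤ e := le_trans (le_max_left n0 e') he
          simp only at hn
          omega)
        exact le_trans h1 (le_trans h4 (le_trans h5 ((hconv n).2 j hj))))
  refine ⟨i.unpair.1, i.unpair.2, s, fun B => ?_, fun B n hn => ?_⟩
  · have h1 := h B
    rw [yy_play1, bN_play1] at h1
    exact ⟨h1.1, h1.2.1⟩
  · have h1 := h B
    rw [yy_play1, bN_play1] at h1
    exact h1.2.2 n hn

/-- waiting for convergence. -/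
theorem exists_wait {f : X → X} {s : List ℕ → ℕ} {e' e : ℕ} (hg : Good2 f s e' e) (ρ : List ℕ)
    (n : ℕ) : ∃ L j, e ≤ n → ∀ B, IsPre (ρ ++ List.replicate L 0) B →
      Conv (f (xB s B)) e n j ∧ ∀ j' < j, ¬ Conv (f (xB s B)) e n j' := by
  classical
  by_cases hn : e ≤ n
  · let B0 : ℕ → ℕ := fun i => ρ.getD i 0
    have hex := (hg.2 B0 n hn).1
    obtain ⟨N, hN⟩ := hg.1.loc_fin B0 (Nat.find hex + 1)
    refine ⟨N, Nat.find hex, fun _ B hB => ?_⟩
    have hag : ∀ i < Nat.find hex + 1, f (xB s B) i = f (xB s B0) i := by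
      refine hN B fun i hi => ?_
      rw [hB i (by simp; omega)]
      simp only [B0]
      rcases Nat.lt_or_ge i ρ.length with h1 | h1
      · rw [List.getD_append _ _ _ _ h1]
      · rw [List.getD_append_right _ _ _ _ h1, List.getD_eq_default _ _ h1,
          List.getD_eq_getElem?_getD]
        simp [show i - ρ.length < N by omega]
    refine ⟨?_, fun j' hj' hcon => ?_⟩
    · exact (conv_local (fun i hi => hag i (by omega)) e n).2 (Nat.find_spec hex)
    · exact Nat.find_min hex hj' ((conv_local (fun i hi => hag i (by omega)) e n).1 hcon)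
  · exact ⟨0, 0, fun h => absurd h hn⟩

end MC92
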