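import Pool.Agent.LibSS92.SS4

/-!
Regressive functions: coding into the order of convergence times; the theorem of Slaman and Steel.
-/

open Encodable

namespace MC92

variable {m : MeasurableSpace (ℕ → ℕ)}

/-- zeros up to the length `n`. -/
def padN (l : List ℕ) (n : ℕ) : List ℕ := l ++ List.replicate (n - l.length) 0

theorem padN_length {l : List ℕ} {n : ℕ} (h : l.length ≤ n) : (padN l n).length = n := by
  simp [padN]; omega

/-- The state of the encoder: two pairs of lists and a position. -/
structure St5 where
  ν : Bool → Bool → List ℕ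
  n : ℕ

section

variable (Lw jw : List ℕ → ℕ → ℕ) (e : ℕ)

/-- a bound for the other pair. -/
def s5J (p : St5) (v : Bool) : ℕ :=
  (p.ν (!v) false).length + (p.ν (!v) true).length + p.n + e

/-- the first new node. -/
def s5r1 (p : St5) (v β : Bool) (l : List Bool) : List ℕ :=
  padN (p.ν v (!β)) p.n ++ [cd (s5J e p v) l]

/-- the second new node. -/
def s5r2 (p : St5) (v β : Bool) (l : List Bool) : List ℕ :=
  padN (p.ν v β) p.n ++ [cd (jw (s5r1 e p v β l) p.n) l]

/-- one step of the encoder. -/
def s5next (p : St5) (v β : Bool) (l : List Bool) : St5 where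
  ν := fun v' i => if v' = v then (if i = β then
      s5r2 jw e p v β l ++ List.replicate (Lw (s5r2 jw e p v β l) p.n) 0
    else s5r1 e p v β l ++ List.replicate (Lw (s5r1 e p v β l) p.n) 0) else p.ν v' i
  n := jw (s5r2 jw e p v β l) p.n

/-- the states. -/
def s5seq (x : X) : ℕ → St5
  | 0 => ⟨fun _ _ => [], e⟩
  | t + 1 => s5next Lw jw e (s5seq x t) t.bodd (x t) (pre x (t + 1))

end

section

variable {Lw jw : List ℕ → ℕ → ℕ} {e : ℕ}

theorem s5seq_local {x x' : X} {t : ℕ} (h : ∀ i < t, x i = x' i) :
    s5seq Lw jw e x t = s5seq Lw jw e x' t := by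
  induction t with
  | zero => rfl
  | succ t ih =>
    simp only [s5seq]
    rw [ih fun i hi => h i (by omega), h t (by omega), pre_eq_iff.2 h]

theorem s5_other (p : St5) (v β : Bool) (l : List Bool) (i : Bool) :
    (s5next Lw jw e p v β l).ν (!v) i = p.ν (!v) i := by
  simp only [s5next]
  rw [if_neg (by cases v <;> simp)]

theorem s5_first (p : St5) (v β : Bool) (l : List Bool) :
    (s5next Lw jw e p v β l).ν v (!β) =
      s5r1 e p v β l ++ List.replicate (Lw (s5r1 e p v β l) p.n) 0 := by
  simp only [s5next, if_true]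
  rw [if_neg (by cases β <;> simp)]

theorem s5_second (p : St5) (v β : Bool) (l : List Bool) :
    (s5next Lw jw e p v β l).ν v β =
      s5r2 jw e p v β l ++ List.replicate (Lw (s5r2 jw e p v β l) p.n) 0 := by
  simp only [s5next, if_true]

theorem s5_prefix (p : St5) (v β : Bool) (l : List Bool) (v' i : Bool) :
    p.ν v' i <+: (s5next Lw jw e p v β l).ν v' i := by
  by_cases hv : v' = v
  · subst hv
    by_cases hi : i = β
    · subst hi
      rw [s5_second]
      unfold s5r2 padN
      rw [List.append_assoc, List.append_assoc]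
      exact List.prefix_append _ _
    · have : i = !β := by cases i <;> cases β <;> simp at hi ⊢
      subst this
      rw [s5_first]
      unfold s5r1 padN
      rw [List.append_assoc, List.append_assoc]
      exact List.prefix_append _ _
  · have : v' = !v := by cases v' <;> cases v <;> simp at hv ⊢
    subst this
    rw [s5_other]

/-- new odd entries are codes of `l`. -/
theorem s5_entry (p : St5) (v β : Bool) (l : List Bool) (v' i : Bool) {u : ℕ}
    (hu : u ∈ (s5next Lw jw e p v β l).ν v' i) (hodd : u % 2 = 1) :
    u ∈ p.ν v' i ∨ ∃ J, u = cd J l := by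
  have hrep : ∀ k : ℕ, u ∉ List.replicate k 0 := by
    intro k hk
    have := List.eq_of_mem_replicate hk
    omega
  by_cases hv : v' = v
  · subst hv
    by_cases hi : i = β
    · subst hi
      rw [s5_second] at hu
      unfold s5r2 padN at hu
      simp only [List.mem_append, List.mem_singleton, hrep, or_false] at hu
      rcases hu with h | h
      · exact Or.inl h
      · exact Or.inr ⟨_, h⟩
    · have : i = !β := by cases i <;> cases β <;> simp at hi ⊢
      subst this
      rw [s5_first] at hu
      unfold s5r1 padN at hu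
      simp only [List.mem_append, List.mem_singleton, hrep, or_false] at hu
      rcases hu with h | h
      · exact Or.inl h
      · exact Or.inr ⟨_, h⟩
  · have : v' = !v := by cases v' <;> cases v <;> simp at hv ⊢
    subst this
    rw [s5_other] at hu
    exact Or.inl hu

theorem s5_has (p : St5) (v β : Bool) (l : List Bool) (i : Bool) :
    ∃ J, cd J l ∈ (s5next Lw jw e p v β l).ν v i := by
  by_cases hi : i = β
  · subst hi
    rw [s5_second]
    refine ⟨jw (s5r1 e p v i l) p.n, ?_⟩
    unfold s5r2
    simp
  · have : i = !β := by cases i <;> cases β <;> simp at hi ⊢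
    subst this
    rw [s5_first]
    refine ⟨s5J e p v, ?_⟩
    unfold s5r1
    simp

end

theorem s5_lt {f : X → X} {s : List ℕ → ℕ} {e' e : ℕ} (hg : Good2 f s e' e)
    {Lw jw : List ℕ → ℕ → ℕ}
    (hW : ∀ ρ n, e ≤ n → ∀ B, IsPre (ρ ++ List.replicate (Lw ρ n) 0) B →
      Conv (f (xB s B)) e n (jw ρ n) ∧ ∀ j' < jw ρ n, ¬ Conv (f (xB s B)) e n j')
    {l' : List ℕ} {n : ℕ} (hl : l'.length ≤ n) (hn : e ≤ n) (J : ℕ) (l : List Bool) :
    J < jw (padN l' n ++ [cd J l]) n := by
  set ρ := padN l' n ++ [cd J l] with hρ
  let B : ℕ → ℕ := fun i => (ρ ++ List.replicate (Lw ρ n) 0).getD i 0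
  have h1 := (hW ρ n hn B fun i _ => rfl).1
  have h2 := (hg.2 B n hn).2 _ h1
  have h3 : B n = cd J l := by
    simp only [B, hρ]
    rw [List.getD_append _ _ _ _ (by simp [padN_length hl]),
      List.getD_append_right _ _ _ _ (by rw [padN_length hl]), padN_length hl]
    simp
  have h4 := lt_cd J l
  omega

/-- domination implies that the function is increasing on a cone. -/
theorem increasing_of_good2 {f : X → X} (hf : Invariant f) {s : List ℕ → ℕ} {e' e : ℕ}
    (hg : Good2 f s e' e) : Cone fun x => Red x (f x) := by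
  choose Lw jw hW using exists_wait hg
  obtain ⟨r1, hr1⟩ := exists_code s
  obtain ⟨r2, hr2⟩ := exists_code fun p : (Bool × Bool) × List Bool =>
    (s5seq Lw jw e (fun n => p.2.getD n false) p.2.length).ν p.1.1 p.1.2
  refine ⟨join r1 r2, fun x hx => ?_⟩
  have hxs : ComputableIn {chi x} s := comp_mono (red_trans (red_join_left _ _) hx) hr1
  set S := s5seq Lw jw e x with hS
  have hS1 : ∀ t, S (t + 1) = s5next Lw jw e (S t) t.bodd (x t) (pre x (t + 1)) := fun t => rfl
  have hS0 : (S 0).n = e := rfl
  -- invariants
  have hstep : ∀ t, (∀ i, ((S t).ν t.bodd i).length ≤ (S t).n) → e ≤ (S t).n →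
      s5J e (S t) t.bodd < jw (s5r1 e (S t) t.bodd (x t) (pre x (t + 1))) (S t).n ∧
      jw (s5r1 e (S t) t.bodd (x t) (pre x (t + 1))) (S t).n <
        jw (s5r2 jw e (S t) t.bodd (x t) (pre x (t + 1))) (S t).n := by
    intro t h1 h2
    exact ⟨s5_lt hg hW (h1 _) h2 _ _, s5_lt hg hW (h1 _) h2 _ _⟩
  have hbodd : ∀ t : ℕ, (t + 1).bodd = !t.bodd := fun t => Nat.bodd_succ t
  have hinv : ∀ t, (∀ i, ((S t).ν t.bodd i).length ≤ (S t).n) ∧ e ≤ (S t).n ∧ t ≤ (S t).n := by
    intro t
    induction t with
    | zero =>
      refine ⟨fun i => ?_, hS0 ▸ le_rfl, Nat.zero_le _⟩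
      exact Nat.zero_le _
    | succ t ih =>
      obtain ⟨h1, h2, h3⟩ := ih
      obtain ⟨h4, h5⟩ := hstep t h1 h2
      have h6 : (S (t + 1)).n = jw (s5r2 jw e (S t) t.bodd (x t) (pre x (t + 1))) (S t).n := rfl
      refine ⟨fun i => ?_, ?_, ?_⟩
      · rw [hbodd, hS1 t, s5_other, ← hS1 t, h6]
        unfold s5J at h4
        cases i <;> omega
      · rw [h6]; unfold s5J at h4; omega
      · rw [h6]; unfold s5J at h4; omega
  have hlen1 : ∀ t i, t + 1 ≤ ((S (t + 1)).ν t.bodd i).length := by
    intro t i
    obtain ⟨h1, h2, h3⟩ := hinv t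
    by_cases hi : i = x t
    · subst hi
      rw [hS1 t, s5_second]
      unfold s5r2
      simp only [List.length_append, padN_length (h1 _), List.length_cons, List.length_nil]
      omega
    · have : i = !(x t) := by
        revert hi
        cases i <;> cases x t <;> simp
      subst this
      rw [hS1 t, s5_first]
      unfold s5r1
      simp only [List.length_append, padN_length (h1 _), List.length_cons, List.length_nil]
      omega
  have hlen : ∀ t v i, t ≤ ((S t).ν v i).length + 1 := by
    intro t
    cases t with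
    | zero => intro v i; exact Nat.zero_le _
    | succ t =>
      intro v i
      by_cases hv : v = t.bodd
      · subst hv
        have := hlen1 t i
        omega
      · have hv' : v = !t.bodd := by
          revert hv
          cases v <;> cases t.bodd <;> simp
        cases t with
        | zero => omega
        | succ t =>
          have h1 : v = t.bodd := by rw [hv', hbodd, Bool.not_not]
          have h2 := hlen1 t i
          rw [hv', hS1 (t + 1), s5_other, ← hv', h1]
          omega
  have hpre : ∀ v i t, (S t).ν v i <+: (S (t + 1)).ν v i := fun v i t => by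
    rw [hS1 t]
    exact s5_prefix _ _ _ _ v i
  let B : Bool → Bool → ℕ → ℕ := fun v i n => ((S (n + 2)).ν v i).getD n 0
  have hB : ∀ v i t, IsPre ((S t).ν v i) (B v i) := fun v i t =>
    isPre_lim (T := fun t => (S t).ν v i) (a := 2) (hpre v i) (fun k => by
      have := hlen (k + 2) v i
      omega) t
  have hBx : ∀ v i, ComputableIn {chi x} (B v i) := by
    intro v i
    have h1 : ComputableIn {chi x} fun n : ℕ =>
        (s5seq Lw jw e (fun k => (pre x (n + 2)).getD k false) (pre x (n + 2)).length).ν v i :=
      ComputableIn.comp (f := fun p : (Bool × Bool) × List Bool =>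
        (s5seq Lw jw e (fun n => p.2.getD n false) p.2.length).ν p.1.1 p.1.2)
        (g := fun n : ℕ => ((v, i), pre x (n + 2)))
        (comp_mono (red_trans (red_join_right _ _) hx) hr2)
        ((ComputableIn.const (v, i)).pair
          (ComputableIn.comp (f := pre x) (g := fun n : ℕ => n + 2) (comp_pre (comp_self x))
            (Primrec.succ.comp Primrec.succ).computableIn))
    have h2 : ComputableIn {chi x} fun n : ℕ =>
        ((s5seq Lw jw e (fun k => (pre x (n + 2)).getD k false)
          (pre x (n + 2)).length).ν v i)[n]? :=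
      (Primrec.list_getElem?.computableIn₂ (O := {chi x})).comp h1 ComputableIn.id
    refine (h2.option_getD (ComputableIn.const 0)).of_eq fun n => ?_
    simp only [B, pre_length, List.getD_eq_getElem?_getD]
    rw [hS, s5seq_local (x := fun k => (pre x (n + 2))[k]?.getD false) (x' := x)
      (t := n + 2) fun k hk => by rw [pre_getElem? x hk]; rfl]
  have hentry : ∀ t v i, ∀ u ∈ (S t).ν v i, u % 2 = 1 → ∃ J k, u = cd J (pre x k) := by
    intro t
    induction t with
    | zero => intro v i u hu; exact absurd hu (by simp [hS, s5seq])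
    | succ t ih =>
      intro v i u hu hodd
      rw [hS1 t] at hu
      rcases s5_entry _ _ _ _ v i hu hodd with h1 | ⟨J, h1⟩
      · exact ih v i u h1 hodd
      · exact ⟨J, t + 1, h1⟩
  have hxgr : ∀ v i, Red x (gr (B v i)) := by
    intro v i
    refine decode_red (fun n hodd => ?_) (fun t => ?_)
    · have h1 : n < ((S (n + 2)).ν v i).length := by
        have := hlen (n + 2) v i
        omega
      exact hentry (n + 2) v i _ (mem_of_isPre (hB v i (n + 2)) h1) hodd
    · have hex : ∃ t', t ≤ t' ∧ t'.bodd = v := by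
        by_cases h : t.bodd = v
        · exact ⟨t, le_rfl, h⟩
        · refine ⟨t + 1, Nat.le_succ t, ?_⟩
          rw [hbodd]
          revert h
          cases t.bodd <;> cases v <;> simp
      obtain ⟨t', h1, h2⟩ := hex
      obtain ⟨J, hJ⟩ := s5_has (Lw := Lw) (jw := jw) (e := e) (S t') t'.bodd (x t')
        (pre x (t' + 1)) i
      rw [← hS1 t', h2] at hJ
      obtain ⟨n, _, hn⟩ := exists_of_mem_isPre (hB v i (t' + 1)) hJ
      exact ⟨n, J, t' + 1, by omega, hn⟩
  have hz : ∀ v i, Red (f (xB s (B v i))) (f x) := fun v i =>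
    hf _ _ (red_iff.2 (comp_xB hxs (hBx v i))) (red_trans (hxgr v i) (hg.1 _).1)
  -- convergence
  have hc1 : ∀ t, Conv (f (xB s (B t.bodd (!(x t))))) e (S t).n
      (jw (s5r1 e (S t) t.bodd (x t) (pre x (t + 1))) (S t).n) ∧
      ∀ j' < jw (s5r1 e (S t) t.bodd (x t) (pre x (t + 1))) (S t).n,
        ¬ Conv (f (xB s (B t.bodd (!(x t))))) e (S t).n j' := by
    intro t
    refine hW _ _ (hinv t).2.1 _ ?_
    have := hB t.bodd (!(x t)) (t + 1)
    rw [hS1 t, s5_first] at this
    exact this
  have hc2 : ∀ t, Conv (f (xB s (B t.bodd (x t)))) e (S t).n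
      (jw (s5r2 jw e (S t) t.bodd (x t) (pre x (t + 1))) (S t).n) ∧
      ∀ j' < jw (s5r2 jw e (S t) t.bodd (x t) (pre x (t + 1))) (S t).n,
        ¬ Conv (f (xB s (B t.bodd (x t)))) e (S t).n j' := by
    intro t
    refine hW _ _ (hinv t).2.1 _ ?_
    have := hB t.bodd (x t) (t + 1)
    rw [hS1 t, s5_second] at this
    exact this
  -- the decoder
  set w := f x with hw
  let cb : Bool → Bool → ℕ → ℕ → Bool := fun v i n j =>
    decide (W (f (xB s (B v i))) e (Nat.pair (max n e) j.unpair.1) j.unpair.2 = some true)
  have hcb : ∀ v i, ComputableIn₂ {chi w} (cb v i) := by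
    intro v i
    have h1 : ComputableIn {chi w} fun p : ℕ × ℕ × ℕ =>
        W (f (xB s (B v i))) p.1 p.2.1 p.2.2 := W_comp (red_iff.1 (hz v i))
    have h2 : Primrec fun p : ℕ × ℕ =>
        (e, Nat.pair (max p.1 e) p.2.unpair.1, p.2.unpair.2) :=
      (Primrec.const e).pair ((Primrec₂.natPair.comp
        (Primrec.nat_max.comp Primrec.fst (Primrec.const e))
        (Primrec.fst.comp (Primrec.unpair.comp Primrec.snd))).pair
        (Primrec.snd.comp (Primrec.unpair.comp Primrec.snd)))
    have h3 : Primrec fun o : Option Bool => decide (o = some true) :=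
      (Primrec.eq.comp Primrec.id (Primrec.const (some true))).decide
    exact ComputableIn.comp (f := fun o : Option Bool => decide (o = some true))
      (g := fun p : ℕ × ℕ => W (f (xB s (B v i))) e
        (Nat.pair (max p.1 e) p.2.unpair.1) p.2.unpair.2) h3.computableIn
      (h1.comp h2.computableIn)
  have hex : ∀ v i n, ∃ j, cb v i n j = true := by
    intro v i n
    obtain ⟨j, hj⟩ := (hg.2 (B v i) (max n e) (le_max_right n e)).1
    exact ⟨j, decide_eq_true hj⟩
  let uu : Bool → Bool → ℕ → ℕ := fun v i n => Nat.find (hex v i n)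
  have huu : ∀ v i, ComputableIn {chi w} (uu v i) := fun v i =>
    ComputableIn.find (hcb v i) (hex v i)
  have huv : ∀ v i n j, e ≤ n → Conv (f (xB s (B v i))) e n j →
      (∀ j' < j, ¬ Conv (f (xB s (B v i))) e n j') → uu v i n = j := by
    intro v i n j hn h1 h2
    simp only [uu]
    rw [Nat.find_eq_iff]
    have hmax : max n e = n := max_eq_left hn
    refine ⟨?_, fun j' hj' hcon => ?_⟩
    · simp only [cb, hmax]
      exact decide_eq_true h1
    · have hcon' := of_decide_eq_true hcon
      simp only [hmax] at hcon'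
      exact h2 j' hj' hcon'
  have hu1 : ∀ t, uu t.bodd (!(x t)) (S t).n =
      jw (s5r1 e (S t) t.bodd (x t) (pre x (t + 1))) (S t).n := fun t =>
    huv _ _ _ _ (hinv t).2.1 (hc1 t).1 (hc1 t).2
  have hu2 : ∀ t, uu t.bodd (x t) (S t).n =
      jw (s5r2 jw e (S t) t.bodd (x t) (pre x (t + 1))) (S t).n := fun t =>
    huv _ _ _ _ (hinv t).2.1 (hc2 t).1 (hc2 t).2
  have hlt : ∀ t, uu t.bodd (!(x t)) (S t).n < uu t.bodd (x t) (S t).n := fun t => by
    rw [hu1, hu2]
    exact (hstep t (hinv t).1 (hinv t).2.1).2
  let nn : ℕ → ℕ := fun t => Nat.rec (motive := fun _ => ℕ) e (fun t n =>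
    cond t.bodd (max (uu true false n) (uu true true n))
      (max (uu false false n) (uu false true n))) t
  have hnn1 : ∀ t, nn (t + 1) = max (uu t.bodd false (nn t)) (uu t.bodd true (nn t)) := by
    intro t
    change cond t.bodd (max (uu true false (nn t)) (uu true true (nn t)))
      (max (uu false false (nn t)) (uu false true (nn t))) = _
    cases t.bodd <;> rfl
  have hnn : ∀ t, nn t = (S t).n := by
    intro t
    induction t with
    | zero => rfl
    | succ t ih =>
      rw [hnn1, ih]
      have h1 := hlt t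
      have h2 : (S (t + 1)).n = uu t.bodd (x t) (S t).n := by
        rw [hu2]
        rfl
      rw [h2]
      revert h1
      cases x t
      · simp only [Bool.not_false]
        intro h1
        exact max_eq_left (le_of_lt h1)
      · simp only [Bool.not_true]
        intro h1
        exact max_eq_right (le_of_lt h1)
  have hxt : ∀ t, x t = decide (uu t.bodd false (nn t) < uu t.bodd true (nn t)) := by
    intro t
    have h1 := hlt t
    rw [hnn]
    revert h1
    cases x t
    · simp only [Bool.not_false]
      intro h1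
      exact (decide_eq_false (by omega)).symm
    · simp only [Bool.not_true]
      intro h1
      exact (decide_eq_true h1).symm
  have hnnc : ComputableIn {chi w} nn := by
    refine ComputableIn.nat_rec (f := fun t : ℕ => t) (g := fun _ : ℕ => e)
      (h := fun (_ : ℕ) (q : ℕ × ℕ) => cond q.1.bodd (max (uu true false q.2) (uu true true q.2))
        (max (uu false false q.2) (uu false true q.2))) ComputableIn.id (ComputableIn.const _) ?_
    have hq : ComputableIn {chi w} fun p : ℕ × (ℕ × ℕ) => p.2.2 :=
      (Primrec.snd.comp Primrec.snd).computableIn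
    refine ComputableIn.cond (c := fun p : ℕ × (ℕ × ℕ) => p.2.1.bodd)
      (Primrec.nat_bodd.comp (Primrec.fst.comp Primrec.snd)).computableIn ?_ ?_
    · exact (Primrec.nat_max.computableIn₂ (O := {chi w})).comp ((huu true false).comp hq)
        ((huu true true).comp hq)
    · exact (Primrec.nat_max.computableIn₂ (O := {chi w})).comp ((huu false false).comp hq)
        ((huu false true).comp hq)
  have hltc : Primrec fun p : ℕ × ℕ => decide (p.1 < p.2) :=
    (Primrec.nat_lt.comp Primrec.fst Primrec.snd).decide
  have hfin : ComputableIn {chi w} fun t : ℕ =>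
      cond t.bodd (decide (uu true false (nn t) < uu true true (nn t)))
        (decide (uu false false (nn t) < uu false true (nn t))) := by
    refine ComputableIn.cond (c := fun t : ℕ => t.bodd) Primrec.nat_bodd.computableIn ?_ ?_
    · exact ComputableIn.comp (f := fun p : ℕ × ℕ => decide (p.1 < p.2))
        (g := fun t : ℕ => (uu true false (nn t), uu true true (nn t))) hltc.computableIn
        (((huu true false).comp hnnc).pair ((huu true true).comp hnnc))
    · exact ComputableIn.comp (f := fun p : ℕ × ℕ => decide (p.1 < p.2))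
        (g := fun t : ℕ => (uu false false (nn t), uu false true (nn t))) hltc.computableIn
        (((huu false false).comp hnnc).pair ((huu false true).comp hnnc))
  refine red_iff.2 (hfin.of_eq fun t => ?_)
  rw [hxt t]
  cases t.bodd <;> rfl

/-- The theorem of Slaman and Steel on regressive functions. -/
theorem slaman_steel (hm : Determinacy m) {f : X → X} (hf : Invariant f) (hfm : Meas m f)
    (hreg : Cone fun x => Red (f x) x) :
    (∃ d, Cone fun x => Red (f x) d ∧ Red d (f x)) ∨ Cone fun x => Red x (f x) := by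
  obtain ⟨e, s, hg⟩ := game1 hm hfm hreg
  by_cases hρ : ∃ ρ : List ℕ, ∀ u u' : ℕ → ℕ, f (xB s (app ρ u)) = f (xB s (app ρ u'))
  · obtain ⟨ρ, hρ⟩ := hρ
    exact Or.inl (const_of_node hf hg hρ)
  · right
    have hsp : ∀ ρ : List ℕ, ∃ (k : ℕ) (ν : Bool → List ℕ), (∀ j, ∀ v ∈ ν j, v % 2 = 0) ∧
        ∀ j B, IsPre (ρ ++ ν j) B → f (xB s B) k = j := fun ρ =>
      split_of_node hg fun h => hρ ⟨ρ, h⟩
    obtain ⟨c0, hc0⟩ := hreg
    have hdom := dom_of_split hf hg hc0 hsp
    obtain ⟨e', e2, s2, hg2⟩ := game2 hm hfm ⟨c0, hc0⟩ hdom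
    exact increasing_of_good2 hf hg2

end MC92
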